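import Pool.Agent.Z125.C1B

/-! # Representations of the primes of the family by the forms of the principal genus of
discriminant `-56` -/

set_option autoImplicit false
set_option linter.all false

namespace Pool.Agent.Z125

open Finset Pool.Agent.Z700

/-- the reduced forms of determinant `14` -/
def Rf (A B C : ℤ) : Prop := (A = 1 ∧ B = 0 ∧ C = 14) ∨ (A = 2 ∧ B = 0 ∧ C = 7) ∨
  (A = 3 ∧ B = 1 ∧ C = 5)

/-- `(a, b, c)` is equivalent to a reduced form -/
def Eqf (a b c : ℤ) : Prop := ∃ A B C x y z w : ℤ, Rf A B C ∧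
  a = A * x ^ 2 + 2 * B * x * y + C * y ^ 2 ∧ c = A * z ^ 2 + 2 * B * z * w + C * w ^ 2 ∧
  b = A * x * z + B * (x * w + y * z) + C * y * w

theorem Eqf.swap {a b c : ℤ} (h : Eqf a b c) : Eqf c b a := by
  obtain ⟨A, B, C, x, y, z, w, h1, h2, h3, h4⟩ := h
  exact ⟨A, B, C, z, w, x, y, h1, h3, h2, by rw [h4]; ring⟩

theorem Eqf.shift {a b c : ℤ} (s : ℤ) (hs : s ^ 2 = 1) (h : Eqf a (b - s * a) (c - 2 * s * b + a)) :
    Eqf a b c := by
  obtain ⟨A, B, C, x, y, z, w, h1, h2, h3, h4⟩ := h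
  refine ⟨A, B, C, x, y, z + s * x, w + s * y, h1, h2, ?_, ?_⟩
  · linear_combination h3 + 2 * s * h4 + s ^ 2 * h2 + a * hs
  · linear_combination h4 + s * h2

theorem red56 : ∀ (n : ℕ) (a b c : ℤ), a + c ≤ n → 0 < a → 0 < c → a * c - b ^ 2 = 14 →
    Eqf a b c := by
  intro n
  induction n with
  | zero => intro a b c h ha hc _; exfalso; push_cast at h; omega
  | succ n ih =>
    intro a b c hn ha hc hdet
    push_cast at hn
    -- the reduction steps
    by_cases h1 : a < 2 * |b|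
    · rcases abs_cases b with ⟨hb, hb0⟩ | ⟨hb, hb0⟩
      · rw [hb] at h1
        refine Eqf.shift 1 (by norm_num) (ih _ _ _ (by linarith) ha ?_ ?_)
        · nlinarith [sq_nonneg (b - 1 * a)]
        · linear_combination hdet
      · rw [hb] at h1
        refine Eqf.shift (-1) (by norm_num) (ih _ _ _ (by linarith) ha ?_ ?_)
        · nlinarith [sq_nonneg (b - (-1) * a)]
        · linear_combination hdet
    by_cases h2 : c < 2 * |b|
    · rcases abs_cases b with ⟨hb, hb0⟩ | ⟨hb, hb0⟩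
      · rw [hb] at h2
        refine Eqf.swap (Eqf.shift 1 (by norm_num) (ih _ _ _ (by linarith) hc ?_ ?_))
        · nlinarith [sq_nonneg (b - 1 * c)]
        · linear_combination hdet
      · rw [hb] at h2
        refine Eqf.swap (Eqf.shift (-1) (by norm_num) (ih _ _ _ (by linarith) hc ?_ ?_))
        · nlinarith [sq_nonneg (b - (-1) * c)]
        · linear_combination hdet
    push Not at h1 h2
    have hb2 : b ^ 2 = |b| ^ 2 := (sq_abs b).symm
    have hb3 : |b| ≤ 2 := by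
      by_contra h
      push Not at h
      nlinarith
    have hba : -2 ≤ b ∧ b ≤ 2 := abs_le.1 hb3
    have hac : a * c ≤ 18 := by nlinarith
    have ha18 : a ≤ 18 := by nlinarith
    obtain ⟨hb4, hb5⟩ := hba
    have hh1 : 2 * b ≤ a ∧ -(2 * b) ≤ a := ⟨by linarith [le_abs_self b], by linarith [neg_abs_le b]⟩
    have hh2 : 2 * b ≤ c ∧ -(2 * b) ≤ c := ⟨by linarith [le_abs_self b], by linarith [neg_abs_le b]⟩
    clear h1 h2 hb3 hb2 ih
    have hc18 : c ≤ 18 := by nlinarith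
    have hdet' : a * c = 14 + b ^ 2 := by linarith
    clear hdet
    interval_cases b <;> norm_num at hdet' <;> norm_num at hh1 hh2
    · exfalso
      interval_cases a <;> omega
    · have h5 : (a = 3 ∧ c = 5) ∨ (a = 5 ∧ c = 3) := by
        interval_cases a <;> omega
      rcases h5 with ⟨rfl, rfl⟩ | ⟨rfl, rfl⟩
      · exact ⟨3, 1, 5, 1, 0, 0, -1, Or.inr (Or.inr ⟨rfl, rfl, rfl⟩), by norm_num, by norm_num,
            by norm_num⟩
      · exact ⟨3, 1, 5, 0, 1, -1, 0, Or.inr (Or.inr ⟨rfl, rfl, rfl⟩), by norm_num, by norm_num,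
            by norm_num⟩
    · have h5 : (a = 1 ∧ c = 14) ∨ (a = 14 ∧ c = 1) ∨ (a = 2 ∧ c = 7) ∨ (a = 7 ∧ c = 2) := by
        interval_cases a <;> omega
      rcases h5 with ⟨rfl, rfl⟩ | ⟨rfl, rfl⟩ | ⟨rfl, rfl⟩ | ⟨rfl, rfl⟩
      · exact ⟨1, 0, 14, 1, 0, 0, 1, Or.inl ⟨rfl, rfl, rfl⟩, by norm_num, by norm_num,
            by norm_num⟩
      · exact ⟨1, 0, 14, 0, 1, 1, 0, Or.inl ⟨rfl, rfl, rfl⟩, by norm_num, by norm_num,
            by norm_num⟩
      · exact ⟨2, 0, 7, 1, 0, 0, 1, Or.inr (Or.inl ⟨rfl, rfl, rfl⟩), by norm_num, by norm_num,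
            by norm_num⟩
      · exact ⟨2, 0, 7, 0, 1, 1, 0, Or.inr (Or.inl ⟨rfl, rfl, rfl⟩), by norm_num, by norm_num,
            by norm_num⟩
    · have h5 : (a = 3 ∧ c = 5) ∨ (a = 5 ∧ c = 3) := by
        interval_cases a <;> omega
      rcases h5 with ⟨rfl, rfl⟩ | ⟨rfl, rfl⟩
      · exact ⟨3, 1, 5, 1, 0, 0, 1, Or.inr (Or.inr ⟨rfl, rfl, rfl⟩), by norm_num, by norm_num,
            by norm_num⟩
      · exact ⟨3, 1, 5, 0, 1, 1, 0, Or.inr (Or.inr ⟨rfl, rfl, rfl⟩), by norm_num, by norm_num,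
            by norm_num⟩
    · exfalso
      interval_cases a <;> omega

/-- `-14` is a square modulo the primes of the family -/
theorem fam_sq {p : ℕ} (hF : Fam p) : ∃ t : ℤ, (p : ℤ) ∣ t ^ 2 + 14 := by
  obtain ⟨hp, h24, h7⟩ := hF
  haveI : Fact p.Prime := ⟨hp⟩
  have hodd : Odd p := Nat.odd_iff.2 (by omega)
  have e1 : jacobiSym (-1) p = 1 := jac_neg_one (by omega)
  have e2 : jacobiSym 2 p = 1 := by
    rw [jacobiSym.at_two hodd, ZMod.χ₈_nat_eq_if_mod_eight]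
    have : p % 8 = 1 := by omega
    simp [this]
    omega
  have e7 : jacobiSym 7 p = 1 := by
    have h1 : jacobiSym ((7 : ℕ) : ℤ) p = jacobiSym (p : ℤ) 7 :=
      jacobiSym.quadratic_reciprocity_one_mod_four' (by decide) (by omega)
    have h2 : jacobiSym (p : ℤ) 7 = jacobiSym ((p % 7 : ℕ) : ℤ) 7 := by
      rw [jacobiSym.mod_left (p : ℤ) 7]
      push_cast
      rfl
    have h3 : jacobiSym ((7 : ℕ) : ℤ) p = 1 := by
      rw [h1, h2]
      rcases h7 with h | h | h <;> rw [h] <;> norm_num [jacobiSym]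
    exact_mod_cast h3
  have e3 : jacobiSym (-14) p = 1 := by
    have : (-14 : ℤ) = -1 * 2 * 7 := by norm_num
    rw [this, jacobiSym.mul_left, jacobiSym.mul_left, e1, e2, e7]
    norm_num
  obtain ⟨s, hs⟩ := ZMod.isSquare_of_jacobiSym_eq_one e3
  refine ⟨(s.val : ℤ), ?_⟩
  rw [← ZMod.intCast_zmod_eq_zero_iff_dvd]
  push_cast
  rw [ZMod.natCast_zmod_val]
  push_cast at hs
  linear_combination -hs

theorem fam_rep {p : ℕ} (hF : Fam p) : (∃ f g : ℤ, (p : ℤ) = g ^ 2 + 14 * f ^ 2) ∨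
    ∃ f g : ℤ, (p : ℤ) = 2 * f ^ 2 + 7 * g ^ 2 := by
  obtain ⟨t, c, hc⟩ := fam_sq hF
  have hp0 : (0 : ℤ) < p := by exact_mod_cast hF.1.pos
  have hc0 : 0 < c := by
    by_contra h
    push Not at h
    nlinarith [sq_nonneg t]
  obtain ⟨A, B, C, x, y, z, w, h1, h2, h3, h4⟩ := red56 (p + c.toNat) p t c (by
    push_cast
    rw [Int.toNat_of_nonneg hc0.le]) hp0 hc0 (by linear_combination -hc)
  rcases h1 with ⟨rfl, rfl, rfl⟩ | ⟨rfl, rfl, rfl⟩ | ⟨rfl, rfl, rfl⟩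
  · exact Or.inl ⟨y, x, by linear_combination h2⟩
  · exact Or.inr ⟨x, y, by linear_combination h2⟩
  · exfalso
    have h5 : 3 * (p : ℤ) = (3 * x + y) ^ 2 + 14 * y ^ 2 := by linear_combination 3 * h2
    have h6 : (3 * (p : ℤ)) % 7 = ((3 * x + y) % 7) ^ 2 % 7 := by
      rw [h5, ← Int.emod_emod_of_dvd _ (dvd_refl (7 : ℤ)), Int.add_emod, Int.mul_emod]
      norm_num [pow_two, Int.mul_emod]
    have h7 := hF.2.2
    have h8 : 0 ≤ (3 * x + y) % 7 ∧ (3 * x + y) % 7 < 7 := by omega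
    set s := (3 * x + y) % 7 with hs
    obtain ⟨h9, h10⟩ := h8
    interval_cases s <;> norm_num at h6 <;> omega

/-- The two representations exclude each other. -/
theorem fam_excl {p : ℕ} (hp : p.Prime) {f g h k : ℤ} (h1 : (p : ℤ) = g ^ 2 + 14 * f ^ 2)
    (h2 : (p : ℤ) = 2 * h ^ 2 + 7 * k ^ 2) : False := by
  have hpp := Nat.prime_iff_prime_int.1 hp
  have hp0 : (0 : ℤ) < p := by exact_mod_cast hp.pos
  have key : ∀ f : ℤ, (p : ℤ) = g ^ 2 + 14 * f ^ 2 → (p : ℤ) ∣ g * k - f * (2 * h) → False := by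
    intro f h1 h3
    obtain ⟨V, hV⟩ := h3
    have h4 : (g * (2 * h) + 14 * f * k) ^ 2 + 14 * (g * k - f * (2 * h)) ^ 2 = 2 * p ^ 2 := by
      have : (2 : ℤ) * p ^ 2 = (g ^ 2 + 14 * f ^ 2) * (2 * (2 * h ^ 2 + 7 * k ^ 2)) := by
        rw [← h1, ← h2]; ring
      rw [this]; ring
    rw [hV] at h4
    have h5 : (p : ℤ) ∣ (g * (2 * h) + 14 * f * k) ^ 2 := by
      refine ⟨2 * p - 14 * p * V ^ 2, ?_⟩
      linear_combination h4
    obtain ⟨U, hU⟩ := hpp.dvd_of_dvd_pow h5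
    rw [hU] at h4
    have h6 : (p : ℤ) ^ 2 * (U ^ 2 + 14 * V ^ 2) = p ^ 2 * 2 := by linear_combination h4
    have h7 : U ^ 2 + 14 * V ^ 2 = 2 := mul_left_cancel₀ (pow_ne_zero 2 hp0.ne') h6
    have h8 : V = 0 := by
      by_contra hV0
      have : 1 ≤ V ^ 2 := by
        have := Int.one_le_abs hV0
        nlinarith [sq_abs V]
      nlinarith [sq_nonneg U]
    rw [h8] at h7
    have h9 : U ^ 2 = 2 := by linarith
    have h10 : U < 2 := by nlinarith
    have h11 : -2 < U := by nlinarith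
    interval_cases U <;> omega
  have h3 : (p : ℤ) ∣ (g * k - f * (2 * h)) * (g * k + f * (2 * h)) := by
    refine ⟨k ^ 2 - 2 * f ^ 2, ?_⟩
    linear_combination -(k ^ 2) * h1 + 2 * f ^ 2 * h2
  rcases hpp.dvd_or_dvd h3 with h4 | h4
  · exact key f h1 h4
  · refine key (-f) (by rw [h1]; ring) ?_
    have : g * k - -f * (2 * h) = g * k + f * (2 * h) := by ring
    rw [this]; exact h4

theorem x2_iff {p : ℕ} : X2 p ↔ ∃ f g : ℤ, (p : ℤ) = 2 * f ^ 2 + 7 * g ^ 2 := by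
  constructor
  · rintro ⟨f, g, h⟩
    exact ⟨f, g, by exact_mod_cast h⟩
  · rintro ⟨f, g, h⟩
    refine ⟨f.natAbs, g.natAbs, ?_⟩
    zify
    rw [sq_abs, sq_abs]
    exact h

end Pool.Agent.Z125
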