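import Pool.Agent.Z125.Rep

/-! # The flips of the representations of `9 m` by `b² + 14 y²` -/

set_option autoImplicit false
set_option linter.all false

namespace Pool.Agent.Z125

open Finset Pool.Agent.Z700

theorem pr_mod8 {P : Finset ℕ} (hP : ∀ p ∈ P, Fam p) : (pr P) % 8 = 1 := by
  classical
  induction P using Finset.induction_on with
  | empty => simp [pr]
  | insert p P hp ih =>
    have h1 : pr (insert p P) = p * pr P := Finset.prod_insert hp
    have h2 := ih fun q hq => hP q (mem_insert_of_mem hq)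
    have h3 := (hP p (mem_insert_self _ _)).2.1
    rw [h1, Nat.mul_mod, h2]
    omega

section flip

variable {P : Finset ℕ} (hP : ∀ p ∈ P, Fam p) {p : ℕ} (hp : p ∈ P) {b y c d : ℤ}
  (hq : 9 * (pr P : ℤ) = b ^ 2 + 14 * y ^ 2) (hcd : c ^ 2 + 14 * d ^ 2 = (p : ℤ) ^ 2)

include hP hp in
theorem not_sq_dvd {x z : ℤ} (h : 9 * (pr P : ℤ) = x ^ 2 + 14 * z ^ 2) : ¬ (p : ℤ) ∣ z := by
  intro hz
  have hpp := Nat.prime_iff_prime_int.1 (hP p hp).1
  have h9 : (p : ℤ) ∣ 9 * (pr P : ℤ) := Dvd.dvd.mul_left (by exact_mod_cast dvd_pr hp) _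
  have hx : (p : ℤ) ∣ x := by
    apply hpp.dvd_of_dvd_pow (n := 2)
    have : x ^ 2 = 9 * (pr P : ℤ) - 14 * z ^ 2 := by rw [h]; ring
    rw [this]
    exact dvd_sub h9 (Dvd.dvd.mul_left (dvd_pow hz two_ne_zero) _)
  have h2 : (p : ℤ) ^ 2 ∣ 9 * (pr P : ℤ) := by
    rw [h]
    exact dvd_add (pow_dvd_pow_of_dvd hx 2) (Dvd.dvd.mul_left (pow_dvd_pow_of_dvd hz 2) _)
  have h3 : p ^ 2 ∣ 9 * pr P := by exact_mod_cast h2
  have hcop : Nat.Coprime (p ^ 2) 3 := by
    apply Nat.Coprime.pow_left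
    rw [Nat.coprime_primes (hP p hp).1 Nat.prime_three]
    have := (hP p hp).2.1
    omega
  have h4 : p ^ 2 ∣ 3 * pr P := by
    have : 9 * pr P = 3 * (3 * pr P) := by ring
    rw [this] at h3
    exact hcop.dvd_of_dvd_mul_left h3
  exact pr_sq hP hp h4

include hP hp hq hcd in
theorem flip_ex (hdiv : (p : ℤ) ∣ y * c - b * d) (hpd : ¬ (p : ℤ) ∣ d)
    (hb3 : ¬ (3 : ℤ) ∣ b) (hby : (3 : ℤ) ∣ y - b) :
    ∃ b' y' : ℤ, (p : ℤ) * b' = b * c + 14 * y * d ∧ (p : ℤ) * y' = y * c - b * d ∧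
      9 * (pr P : ℤ) = b' ^ 2 + 14 * y' ^ 2 ∧ ¬ (3 : ℤ) ∣ b' ∧ (3 : ℤ) ∣ y' - b' ∧
      (p : ℤ) ∣ b * y' + b' * y ∧ ∀ r ∈ P, r ≠ p → (r : ℤ) ∣ b * y' - b' * y := by
  have hpp := Nat.prime_iff_prime_int.1 (hP p hp).1
  have hp0 : (0 : ℤ) < p := by exact_mod_cast (hP p hp).1.pos
  obtain ⟨y', hy'⟩ := hdiv
  have hid : (b * c + 14 * y * d) ^ 2 + 14 * (y * c - b * d) ^ 2 = 9 * (pr P : ℤ) * (p : ℤ) ^ 2 := by
    rw [hq, ← hcd]; ring
  have h1 : (p : ℤ) ∣ (b * c + 14 * y * d) ^ 2 := by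
    refine ⟨9 * (pr P : ℤ) * p - 14 * p * y' ^ 2, ?_⟩
    rw [hy'] at hid
    linear_combination hid
  obtain ⟨b', hb'⟩ := hpp.dvd_of_dvd_pow h1
  have hn : 9 * (pr P : ℤ) = b' ^ 2 + 14 * y' ^ 2 := by
    rw [hy', hb'] at hid
    have : (p : ℤ) ^ 2 * (9 * (pr P : ℤ)) = p ^ 2 * (b' ^ 2 + 14 * y' ^ 2) := by
      linear_combination -hid
    exact mul_left_cancel₀ (pow_ne_zero 2 hp0.ne') this
  obtain ⟨n, hn'⟩ : (p : ℤ) ∣ (pr P : ℤ) := by exact_mod_cast dvd_pr hp
  have hdif : b * y' - b' * y = -(9 * n * d) := by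
    have : (p : ℤ) * (b * y' - b' * y) = p * (-(9 * n * d)) := by
      have e1 : (p : ℤ) * (b * y' - b' * y) = b * (p * y') - y * (p * b') := by ring
      rw [e1, ← hy', ← hb']
      have e2 : (p : ℤ) * (-(9 * n * d)) = -(9 * (p * n)) * d := by ring
      rw [e2, ← hn', hq]
      ring
    exact mul_left_cancel₀ hp0.ne' this
  refine ⟨b', y', hb'.symm, hy'.symm, hn, ?_, ?_, ?_, ?_⟩
  · -- `3` does not divide `b'`
    intro h3
    have hp3 : (p : ℤ) % 3 = 1 := by have := (hP p hp).2.1; omega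
    have e1 : (p : ℤ) * b' = b * (c - d) + (15 * b * d + 14 * (y - b) * d) := by rw [← hb']; ring
    have h4 : (3 : ℤ) ∣ b * (c - d) := by
      have : b * (c - d) = (p : ℤ) * b' - (3 * (5 * b * d) + 14 * d * (y - b)) := by
        rw [e1]; ring
      rw [this]
      exact dvd_sub (Dvd.dvd.mul_left h3 _) (dvd_add (Dvd.intro _ rfl) (Dvd.dvd.mul_left hby _))
    rcases Int.prime_three.dvd_or_dvd h4 with h5 | h5
    · exact hb3 h5
    · obtain ⟨k, hk⟩ := h5
      have hc : c = d + 3 * k := by linarith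
      rw [hc] at hcd
      have h6 : (3 : ℤ) ∣ (p : ℤ) ^ 2 := by
        refine ⟨5 * d ^ 2 + 2 * d * k + 3 * k ^ 2, ?_⟩
        linear_combination -hcd
      have h7 := Int.prime_three.dvd_of_dvd_pow h6
      omega
  · have hp3 : (p : ℤ) % 3 = 1 := by have := (hP p hp).2.1; omega
    have h4 : (3 : ℤ) ∣ (p : ℤ) * (y' - b') := by
      have : (p : ℤ) * (y' - b') = (y - b) * c - 14 * d * (y - b) - 3 * (5 * b * d) := by
        have e1 : (p : ℤ) * (y' - b') = p * y' - p * b' := by ring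
        rw [e1, ← hy', ← hb']; ring
      rw [this]
      exact dvd_sub (dvd_sub (Dvd.dvd.mul_right hby _) (Dvd.dvd.mul_left hby _)) (Dvd.intro _ rfl)
    rcases Int.prime_three.dvd_or_dvd h4 with h5 | h5
    · omega
    · exact h5
  · -- `p` divides one of the two combinations, not the second
    have h4 : (p : ℤ) ∣ (b * y' + b' * y) * (b * y' - b' * y) := by
      have : (b * y' + b' * y) * (b * y' - b' * y) = 9 * (p * n) * (y' ^ 2 - y ^ 2) := by
        rw [← hn']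
        linear_combination -(y' ^ 2) * hq + y ^ 2 * hn
      rw [this]
      exact Dvd.dvd.mul_right (Dvd.dvd.mul_left (Dvd.intro _ rfl) _) _
    rcases hpp.dvd_or_dvd h4 with h5 | h5
    · exact h5
    · exfalso
      rw [hdif, dvd_neg] at h5
      rcases hpp.dvd_or_dvd h5 with h6 | h6
      · have h7 : (p : ℤ) ^ 2 ∣ 9 * (pr P : ℤ) := by
          obtain ⟨k, hk⟩ := h6
          refine ⟨k, ?_⟩
          rw [hn']
          linear_combination (p : ℤ) * hk
        have h8 : p ^ 2 ∣ 9 * pr P := by exact_mod_cast h7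
        have hcop : Nat.Coprime (p ^ 2) 3 := by
          apply Nat.Coprime.pow_left
          rw [Nat.coprime_primes (hP p hp).1 Nat.prime_three]
          have := (hP p hp).2.1
          omega
        have : 9 * pr P = 3 * (3 * pr P) := by ring
        rw [this] at h8
        exact pr_sq hP hp (hcop.dvd_of_dvd_mul_left h8)
      · exact hpd h6
  · intro r hr hrp
    rw [hdif, dvd_neg]
    have hrr := Nat.prime_iff_prime_int.1 (hP r hr).1
    have h4 : (r : ℤ) ∣ (p : ℤ) * n := by rw [← hn']; exact_mod_cast dvd_pr hr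
    rcases hrr.dvd_or_dvd h4 with h5 | h5
    · exfalso
      exact hrp ((Nat.prime_dvd_prime_iff_eq (hP r hr).1 (hP p hp).1).1 (by exact_mod_cast h5))
    · exact Dvd.dvd.mul_right (Dvd.dvd.mul_left h5 _) _

include hP hq in
/-- the character at the other primes -/
theorem flip_char {r : ℕ} (hr : r ∈ P) (hrp : r ≠ p) (hpr : p.Prime) {b' y' s k w : ℤ}
    (hn : 9 * (pr P : ℤ) = b' ^ 2 + 14 * y' ^ 2)
    (hs : s = 1 ∨ s = 2) (hw : s * (p * y' * y) = w ^ 2 - 9 * (pr P : ℤ) * k) (ε : ℤ)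
    (hε : ε = 1 ∨ ε = -1) :
    jacobiSym (ε * y') r = jacobiSym p r * jacobiSym y r := by
  have hrr := Nat.prime_iff_prime_int.1 (hP r hr).1
  have h24 := (hP r hr).2.1
  have hodd : Odd r := Nat.odd_iff.2 (by omega)
  have hs1 : jacobiSym s r = 1 := by
    rcases hs with rfl | rfl
    · exact jacobiSym.one_left r
    · rw [jacobiSym.at_two hodd, ZMod.χ₈_nat_eq_if_mod_eight]
      have : r % 8 = 1 := by omega
      simp [this]
      omega
  have hε1 : jacobiSym ε r = 1 := by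
    rcases hε with rfl | rfl
    · exact jacobiSym.one_left r
    · exact jac_neg_one (by omega)
  have hpr' : ¬ (r : ℤ) ∣ (p : ℤ) := by
    intro h
    exact hrp ((Nat.prime_dvd_prime_iff_eq (hP r hr).1 hpr).1 (by exact_mod_cast h))
  have hy : ¬ (r : ℤ) ∣ y := not_sq_dvd hP hr hq
  have hy' : ¬ (r : ℤ) ∣ y' := not_sq_dvd hP hr hn
  have hrm : (r : ℤ) ∣ 9 * (pr P : ℤ) * k :=
    Dvd.dvd.mul_right (Dvd.dvd.mul_left (by exact_mod_cast dvd_pr hr) _) _
  have hsr : ¬ (r : ℤ) ∣ s := by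
    intro h
    exact jac_ne_zero (hP r hr).1 (fun h => by rw [jac_zero (hP r hr).1 h] at hs1; norm_num at hs1)
      (jac_zero (hP r hr).1 h)
  have hwr : ¬ (r : ℤ) ∣ w := by
    intro h
    have h1 : (r : ℤ) ∣ s * (p * y' * y) := by
      rw [hw]; exact dvd_sub (dvd_pow h two_ne_zero) hrm
    rcases hrr.dvd_or_dvd h1 with h2 | h2
    · exact hsr h2
    · rcases hrr.dvd_or_dvd h2 with h3 | h3
      · rcases hrr.dvd_or_dvd h3 with h4 | h4
        · exact hpr' h4
        · exact hy' h4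
      · exact hy h3
  have h1 : jacobiSym (s * (p * y' * y)) r = jacobiSym (w * w) r := by
    apply jac_congr
    have : s * (p * y' * y) - w * w = -(9 * (pr P : ℤ) * k) := by rw [hw]; ring
    rw [this]
    exact hrm.neg_right
  rw [jacobiSym.mul_left, jacobiSym.mul_left, jacobiSym.mul_left, jacobiSym.mul_left,
    jac_sq (hP r hr).1 hwr, hs1, one_mul] at h1
  rw [jacobiSym.mul_left, hε1, one_mul]
  have e1 := jac_sq (hP r hr).1 hpr'
  have e2 := jac_sq (hP r hr).1 hy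
  have e3 : jacobiSym y' r = jacobiSym y' r * (jacobiSym p r * jacobiSym p r) *
    (jacobiSym y r * jacobiSym y r) := by rw [e1, e2]; ring
  rw [e3]
  linear_combination (jacobiSym p r * jacobiSym y r) * h1

end flip

theorem j7_neg (x : ℤ) : jacobiSym (-x) 7 = - jacobiSym x 7 := by
  have h : jacobiSym (-1) 7 = -1 := by norm_num [jacobiSym]
  have : -x = -1 * x := by ring
  rw [this, jacobiSym.mul_left, h]
  ring

theorem j7_fam {p : ℕ} (hF : Fam p) : jacobiSym (p : ℤ) 7 = 1 := by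
  have h2 : jacobiSym (p : ℤ) 7 = jacobiSym ((p % 7 : ℕ) : ℤ) 7 := by
    rw [jacobiSym.mod_left (p : ℤ) 7]
    push_cast
    rfl
  rw [h2]
  rcases hF.2.2 with h | h | h <;> rw [h] <;> norm_num [jacobiSym]

theorem prime7 : Nat.Prime 7 := by norm_num

theorem t_SOLB : S_SOLB := by
  intro P hP p hp q hqS
  obtain ⟨b, y⟩ := q
  obtain ⟨hq, hb4, hb3, hby⟩ := hqS
  simp only at hq hb4 hb3 hby ⊢
  have hpp := Nat.prime_iff_prime_int.1 (hP p hp).1
  have hp0 : (0 : ℤ) < p := by exact_mod_cast (hP p hp).1.pos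
  have hp24 := (hP p hp).2.1
  have hp8 : (p : ℤ) % 8 = 1 := by omega
  have hp3 : (p : ℤ) ≠ 0 := hp0.ne'
  have hm8 : (pr P : ℤ) % 8 = 1 := by have := pr_mod8 hP; omega
  have hyp : ¬ (p : ℤ) ∣ y := not_sq_dvd hP hp hq
  have h9 : (p : ℤ) ∣ 9 * (pr P : ℤ) := Dvd.dvd.mul_left (by exact_mod_cast dvd_pr hp) _
  -- `y` is even
  have hye : (2 : ℤ) ∣ y := by
    by_contra hy
    have h1 : y % 2 = 1 := by omega
    obtain ⟨k, hk⟩ : ∃ k, y = 2 * k + 1 := ⟨y / 2, by omega⟩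
    obtain ⟨l, hl⟩ : ∃ l, b = 4 * l + 1 := ⟨b / 4, by omega⟩
    obtain ⟨n, hn⟩ : ∃ n, (pr P : ℤ) = 8 * n + 1 := ⟨(pr P : ℤ) / 8, by omega⟩
    rw [hk, hl, hn] at hq
    ring_nf at hq
    omega
  obtain ⟨y2, hy2⟩ := hye
  -- the sign of `d`
  have hsign : ∀ c d : ℤ, c ^ 2 + 14 * d ^ 2 = (p : ℤ) ^ 2 →
      (p : ℤ) ∣ y * c - b * d ∨ (p : ℤ) ∣ y * c - b * (-d) := by
    intro c d hcd
    have : (p : ℤ) ∣ (y * c - b * d) * (y * c - b * (-d)) := by
      have e : (y * c - b * d) * (y * c - b * (-d)) = y ^ 2 * p * p - d ^ 2 * (9 * (pr P : ℤ)) := by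
        rw [hq]
        linear_combination y ^ 2 * hcd
      rw [e]
      exact dvd_sub (Dvd.intro_left _ rfl) (Dvd.dvd.mul_left h9 _)
    exact hpp.dvd_or_dvd this
  rcases fam_rep (hP p hp) with ⟨f0, g, hfg0⟩ | ⟨f0, g, hfg0⟩
  · -- first case
    have hX : ¬ X2 p := by
      rw [x2_iff]
      rintro ⟨h, k, h2⟩
      exact fam_excl (hP p hp).1 hfg0 h2
    obtain ⟨f, hfg, hdiv⟩ : ∃ f : ℤ, (p : ℤ) = g ^ 2 + 14 * f ^ 2 ∧
        (p : ℤ) ∣ y * (g ^ 2 - 14 * f ^ 2) - b * (2 * f * g) := by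
      rcases hsign (g ^ 2 - 14 * f0 ^ 2) (2 * f0 * g) (by rw [hfg0]; ring) with h | h
      · exact ⟨f0, hfg0, h⟩
      · refine ⟨-f0, by rw [hfg0]; ring, ?_⟩
        have : y * (g ^ 2 - 14 * (-f0) ^ 2) - b * (2 * -f0 * g) =
          y * (g ^ 2 - 14 * f0 ^ 2) - b * -(2 * f0 * g) := by ring
        rw [this]; exact h
    have hcd : (g ^ 2 - 14 * f ^ 2) ^ 2 + 14 * (2 * f * g) ^ 2 = (p : ℤ) ^ 2 := by rw [hfg]; ring
    -- `g` is odd, `f` is even
    have hg2 : g % 2 = 1 := by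
      by_contra h
      obtain ⟨k, hk⟩ : ∃ k, g = 2 * k := ⟨g / 2, by omega⟩
      rw [hk] at hfg
      ring_nf at hfg
      omega
    obtain ⟨g1, hg1⟩ : ∃ k, g = 2 * k + 1 := ⟨g / 2, by omega⟩
    have hgg : g ^ 2 % 8 = 1 := by
      obtain ⟨t, ht⟩ : Even (g1 * (g1 + 1)) := Int.even_mul_succ_self g1
      have : g ^ 2 = 8 * t + 1 := by rw [hg1]; linear_combination 4 * ht
      omega
    have hf2 : f % 2 = 0 := by
      by_contra h
      obtain ⟨k, hk⟩ : ∃ k, f = 2 * k + 1 := ⟨f / 2, by omega⟩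
      obtain ⟨t, ht⟩ : Even (k * (k + 1)) := Int.even_mul_succ_self k
      have : f ^ 2 = 8 * t + 1 := by rw [hk]; linear_combination 4 * ht
      omega
    obtain ⟨f1, hf1⟩ : ∃ k, f = 2 * k := ⟨f / 2, by omega⟩
    have hc4 : (g ^ 2 - 14 * f ^ 2) % 4 = 1 := by
      have : f ^ 2 = 4 * f1 ^ 2 := by rw [hf1]; ring
      omega
    have hpd : ¬ (p : ℤ) ∣ 2 * f * g := by
      intro h
      have h1 : (p : ℤ) ∣ g := by
        rcases hpp.dvd_or_dvd h with h | h
        · rcases hpp.dvd_or_dvd h with h | h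
          · exfalso
            have : p ∣ 2 := by exact_mod_cast h
            have := Nat.le_of_dvd (by norm_num) this
            have := (hP p hp).1.two_le
            omega
          · apply hpp.dvd_of_dvd_pow (n := 2)
            have : g ^ 2 = p - 14 * f ^ 2 := by rw [hfg]; ring
            rw [this]
            exact dvd_sub dvd_rfl (Dvd.dvd.mul_left (dvd_pow h two_ne_zero) _)
        · exact h
      have h2 : (p : ℤ) ≤ |g| := Int.le_of_dvd (abs_pos.2 (by rintro rfl; omega)) ((dvd_abs _ _).2 h1)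
      have h3 : (2 : ℤ) ≤ p := by exact_mod_cast (hP p hp).1.two_le
      nlinarith [sq_abs g, sq_nonneg f]
    obtain ⟨b', y', e1, e2, e3, e4, e5, e6, e7⟩ := flip_ex hP hp hq hcd hdiv hpd hb3 hby
    have hb'4 : b' % 4 = 1 := by
      have h1 : (p : ℤ) * b' = b * (g ^ 2 - 14 * f ^ 2) + 4 * (7 * y2 * (2 * f * g)) := by
        rw [e1, hy2]; ring
      obtain ⟨l, hl⟩ : ∃ l, b = 4 * l + 1 := ⟨b / 4, by omega⟩
      obtain ⟨n, hn⟩ : ∃ n, (p : ℤ) = 4 * n + 1 := ⟨(p : ℤ) / 4, by omega⟩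
      obtain ⟨u, hu⟩ : ∃ u, (g ^ 2 - 14 * f ^ 2) = 4 * u + 1 := ⟨(g ^ 2 - 14 * f ^ 2) / 4, by omega⟩
      rw [hl, hn, hu] at h1
      have : b' = 4 * (4 * l * u + l + u + 7 * y2 * (2 * f * g) - n * b') + 1 := by
        linear_combination h1
      omega
    refine ⟨(b', y'), ⟨e3, hb'4, e4, e5⟩, e6, e7, ?_, fun h => absurd h hX, fun _ => ?_⟩
    · intro r hr hrp
      have h1 := flip_char hP hq hr hrp (hP p hp).1 (s := 1) (k := f ^ 2) (w := y * g - b * f) e3
        (Or.inl rfl) (by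
          have : (1 : ℤ) * (p * y' * y) = (p * y') * y := by ring
          rw [this, e2, hq]; ring) 1 (Or.inl rfl)
      rwa [one_mul] at h1
    · have h1 : jacobiSym (p * b') 7 = jacobiSym (b * (g * g)) 7 := by
        apply jac_congr
        refine ⟨2 * y * (2 * f * g) - 2 * b * f ^ 2, ?_⟩
        rw [e1]
        push_cast
        ring
      have hg7 : ¬ ((7 : ℕ) : ℤ) ∣ g := by
        rintro ⟨k, hk⟩
        have h7 := (hP p hp).2.2
        have : (p : ℤ) = 7 * (7 * k ^ 2 + 2 * f ^ 2) := by rw [hfg, hk]; push_cast; ring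
        omega
      rw [jacobiSym.mul_left, jacobiSym.mul_left, jacobiSym.mul_left, j7_fam (hP p hp), one_mul,
        jac_sq prime7 hg7, mul_one] at h1
      exact h1
  · -- second case
    have hX : X2 p := x2_iff.2 ⟨f0, g, hfg0⟩
    obtain ⟨f, hfg, hdiv⟩ : ∃ f : ℤ, (p : ℤ) = 2 * f ^ 2 + 7 * g ^ 2 ∧
        (p : ℤ) ∣ y * (2 * f ^ 2 - 7 * g ^ 2) - b * (2 * f * g) := by
      rcases hsign (2 * f0 ^ 2 - 7 * g ^ 2) (2 * f0 * g) (by rw [hfg0]; ring) with h | h
      · exact ⟨f0, hfg0, h⟩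
      · refine ⟨-f0, by rw [hfg0]; ring, ?_⟩
        have : y * (2 * (-f0) ^ 2 - 7 * g ^ 2) - b * (2 * -f0 * g) =
          y * (2 * f0 ^ 2 - 7 * g ^ 2) - b * -(2 * f0 * g) := by ring
        rw [this]; exact h
    have hcd : (2 * f ^ 2 - 7 * g ^ 2) ^ 2 + 14 * (2 * f * g) ^ 2 = (p : ℤ) ^ 2 := by rw [hfg]; ring
    have hg2 : g % 2 = 1 := by
      by_contra h
      obtain ⟨k, hk⟩ : ∃ k, g = 2 * k := ⟨g / 2, by omega⟩
      rw [hk] at hfg
      ring_nf at hfg
      omega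
    obtain ⟨g1, hg1⟩ : ∃ k, g = 2 * k + 1 := ⟨g / 2, by omega⟩
    have hgg : g ^ 2 % 8 = 1 := by
      obtain ⟨t, ht⟩ : Even (g1 * (g1 + 1)) := Int.even_mul_succ_self g1
      have : g ^ 2 = 8 * t + 1 := by rw [hg1]; linear_combination 4 * ht
      omega
    have hf2 : f % 2 = 1 := by
      by_contra h
      obtain ⟨k, hk⟩ : ∃ k, f = 2 * k := ⟨f / 2, by omega⟩
      have : f ^ 2 = 4 * k ^ 2 := by rw [hk]; ring
      omega
    obtain ⟨f1, hf1⟩ : ∃ k, f = 2 * k + 1 := ⟨f / 2, by omega⟩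
    have hff : f ^ 2 % 8 = 1 := by
      obtain ⟨t, ht⟩ : Even (f1 * (f1 + 1)) := Int.even_mul_succ_self f1
      have : f ^ 2 = 8 * t + 1 := by rw [hf1]; linear_combination 4 * ht
      omega
    have hc4 : (2 * f ^ 2 - 7 * g ^ 2) % 4 = 3 := by omega
    have hpd : ¬ (p : ℤ) ∣ 2 * f * g := by
      intro h
      have hcase : (p : ℤ) ∣ f ∨ (p : ℤ) ∣ g := by
        rcases hpp.dvd_or_dvd h with h | h
        · rcases hpp.dvd_or_dvd h with h | h
          · exfalso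
            have : p ∣ 2 := by exact_mod_cast h
            have := Nat.le_of_dvd (by norm_num) this
            have := (hP p hp).1.two_le
            omega
          · exact Or.inl h
        · exact Or.inr h
      have h3 : (2 : ℤ) ≤ p := by exact_mod_cast (hP p hp).1.two_le
      rcases hcase with h1 | h1
      · have h2 : (p : ℤ) ≤ |f| := Int.le_of_dvd (abs_pos.2 (by rintro rfl; omega))
          ((dvd_abs _ _).2 h1)
        nlinarith [sq_abs f, sq_nonneg g]
      · have h2 : (p : ℤ) ≤ |g| := Int.le_of_dvd (abs_pos.2 (by rintro rfl; omega))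
          ((dvd_abs _ _).2 h1)
        nlinarith [sq_abs g, sq_nonneg f]
    obtain ⟨b', y', e1, e2, e3, e4, e5, e6, e7⟩ := flip_ex hP hp hq hcd hdiv hpd hb3 hby
    have hb'4 : b' % 4 = 3 := by
      have h1 : (p : ℤ) * b' = b * (2 * f ^ 2 - 7 * g ^ 2) + 4 * (7 * y2 * (2 * f * g)) := by
        rw [e1, hy2]; ring
      obtain ⟨l, hl⟩ : ∃ l, b = 4 * l + 1 := ⟨b / 4, by omega⟩
      obtain ⟨n, hn⟩ : ∃ n, (p : ℤ) = 4 * n + 1 := ⟨(p : ℤ) / 4, by omega⟩
      obtain ⟨u, hu⟩ : ∃ u, (2 * f ^ 2 - 7 * g ^ 2) = 4 * u + 3 :=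
        ⟨(2 * f ^ 2 - 7 * g ^ 2) / 4, by omega⟩
      rw [hl, hn, hu] at h1
      have : b' = 4 * (4 * l * u + 3 * l + u + 7 * y2 * (2 * f * g) - n * b') + 3 := by
        linear_combination h1
      omega
    refine ⟨(-b', -y'), ⟨?_, ?_, ?_, ?_⟩, ?_, ?_, ?_, fun _ => ?_, fun h => absurd hX h⟩
    · simp only; rw [e3]; ring
    · simp only; omega
    · simp only; rwa [dvd_neg]
    · simp only
      have : -y' - -b' = -(y' - b') := by ring
      rw [this, dvd_neg]; exact e5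
    · simp only
      have : b * -y' + -b' * y = -(b * y' + b' * y) := by ring
      rw [this, dvd_neg]; exact e6
    · intro r hr hrp
      simp only
      have : b * -y' - -b' * y = -(b * y' - b' * y) := by ring
      rw [this, dvd_neg]; exact e7 r hr hrp
    · intro r hr hrp
      have h1 := flip_char hP hq hr hrp (hP p hp).1 (s := 2) (k := g ^ 2)
        (w := 2 * f * y - b * g) e3 (Or.inr rfl) (by
          have : (2 : ℤ) * (p * y' * y) = 2 * (p * y') * y := by ring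
          rw [this, e2, hq]; ring) (-1) (Or.inr rfl)
      have e : (-1 : ℤ) * y' = -y' := by ring
      rwa [e] at h1
    · have h1 : jacobiSym (p * b') 7 = jacobiSym (b * (2 * (f * f))) 7 := by
        apply jac_congr
        refine ⟨2 * y * (2 * f * g) - b * g ^ 2, ?_⟩
        rw [e1]
        push_cast
        ring
      have hf7 : ¬ ((7 : ℕ) : ℤ) ∣ f := by
        rintro ⟨k, hk⟩
        have h7 := (hP p hp).2.2
        have : (p : ℤ) = 7 * (14 * k ^ 2 + g ^ 2) := by rw [hfg, hk]; push_cast; ring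
        omega
      have h27 : jacobiSym 2 7 = 1 := by norm_num [jacobiSym]
      rw [jacobiSym.mul_left, jacobiSym.mul_left, jacobiSym.mul_left, jacobiSym.mul_left,
        j7_fam (hP p hp), one_mul, jac_sq prime7 hf7, h27, mul_one, mul_one] at h1
      simp only
      rw [j7_neg, h1]

end Pool.Agent.Z125
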